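import Mathlib

/-!
# Projective algebras of plane sets

Two facts about projective algebras (Everett and Ulam) of subsets of the plane:
one plane set can code an arbitrary set of natural numbers in the theory of the algebra it
generates.  Consequences: there are exactly continuum many isomorphism types of `k`-generated
projective algebras for every `k ≥ 1`, and no countable projective algebra is universal.
-/

namespace Pool.Agent.H243.ProjAlg

open Set
open scoped Cardinal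

/-- The plane. -/
abbrev Pl : Type := ℝ × ℝ

/-- The first axis `X = {(x,0)}`. -/
def axX : Set Pl := {p | p.2 = 0}

/-- The second axis `Y = {(0,y)}`. -/
def axY : Set Pl := {p | p.1 = 0}

/-- `π₁ S = {(x,0) : ∃ y, (x,y) ∈ S}`. -/
def pr1 (S : Set Pl) : Set Pl := {p | p.2 = 0 ∧ ∃ y, (p.1, y) ∈ S}

/-- `π₂ S = {(0,y) : ∃ x, (x,y) ∈ S}`. -/
def pr2 (S : Set Pl) : Set Pl := {p | p.1 = 0 ∧ ∃ x, (x, p.2) ∈ S}

/-- `A ⊗ B = {(x,y) : (x,0) ∈ A, (0,y) ∈ B}`. -/
def dprod (A B : Set Pl) : Set Pl := {p | (p.1, 0) ∈ A ∧ (0, p.2) ∈ B}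

/-- A projective algebra of plane sets. -/
structure IsProjAlg (F : Set (Set Pl)) : Prop where
  union_mem : ∀ A ∈ F, ∀ B ∈ F, A ∪ B ∈ F
  inter_mem : ∀ A ∈ F, ∀ B ∈ F, A ∩ B ∈ F
  compl_mem : ∀ A ∈ F, Aᶜ ∈ F
  pr1_mem : ∀ A ∈ F, pr1 A ∈ F
  pr2_mem : ∀ A ∈ F, pr2 A ∈ F
  dprod_mem : ∀ A ∈ F, ∀ B ∈ F, A ⊆ axX → B ⊆ axY → dprod A B ∈ F

/-- `φ` is an isomorphism of the projective algebra `F` onto the projective algebra `G`. -/
structure IsIso (φ : Set Pl → Set Pl) (F G : Set (Set Pl)) : Prop where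
  bij : BijOn φ F G
  union : ∀ A ∈ F, ∀ B ∈ F, φ (A ∪ B) = φ A ∪ φ B
  inter : ∀ A ∈ F, ∀ B ∈ F, φ (A ∩ B) = φ A ∩ φ B
  compl : ∀ A ∈ F, φ Aᶜ = (φ A)ᶜ
  pr1 : ∀ A ∈ F, φ (pr1 A) = pr1 (φ A)
  pr2 : ∀ A ∈ F, φ (pr2 A) = pr2 (φ A)
  dprod : ∀ A ∈ F, ∀ B ∈ F, A ⊆ axX → B ⊆ axY → φ (dprod A B) = dprod (φ A) (φ B)

/-- Two projective algebras are isomorphic. -/
def Iso (F G : Set (Set Pl)) : Prop := ∃ φ : Set Pl → Set Pl, IsIso φ F G

/-- The projective algebra generated by a family `T` of plane sets: the smallest projective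
algebra which contains all members of `T`. -/
def gen (T : Set (Set Pl)) : Set (Set Pl) := ⋂₀ {F | IsProjAlg F ∧ T ⊆ F}

/-! ### Terms -/

/-- Terms of the language of projective algebras with `k` generators. -/
inductive Tm (k : ℕ) : Type
  | g (i : Fin k) : Tm k
  | c (a : Tm k) : Tm k
  | u (a b : Tm k) : Tm k
  | p (a : Tm k) : Tm k
  | q (a : Tm k) : Tm k
  | t (a b : Tm k) : Tm k
  deriving Countable

/-- Evaluation of terms. -/
def ev {k : ℕ} (S : Fin k → Set Pl) : Tm k → Set Pl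
  | .g i => S i
  | .c a => (ev S a)ᶜ
  | .u a b => ev S a ∪ ev S b
  | .p a => pr1 (ev S a)
  | .q a => pr2 (ev S a)
  | .t a b => dprod (pr1 (ev S a)) (pr2 (ev S b))

theorem pr1_sub (A : Set Pl) : pr1 A ⊆ axX := fun _ h => h.1
theorem pr2_sub (A : Set Pl) : pr2 A ⊆ axY := fun _ h => h.1

theorem pr1_eq {A : Set Pl} : A ⊆ axX ↔ pr1 A = A := by
  constructor
  · intro h
    ext ⟨x, y⟩
    constructor
    · rintro ⟨h1, z, hz⟩
      have h2 : z = 0 := h hz
      have h3 : y = 0 := h1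
      subst h2; subst h3; exact hz
    · intro hp
      have h1 : y = 0 := h hp
      exact ⟨h1, y, hp⟩
  · intro h; rw [← h]; exact pr1_sub A

theorem pr2_eq {A : Set Pl} : A ⊆ axY ↔ pr2 A = A := by
  constructor
  · intro h
    ext ⟨x, y⟩
    constructor
    · rintro ⟨h1, z, hz⟩
      have h2 : z = 0 := h hz
      have h3 : x = 0 := h1
      subst h2; subst h3; exact hz
    · intro hp
      have h1 : x = 0 := h hp
      exact ⟨h1, x, hp⟩
  · intro h; rw [← h]; exact pr2_sub A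

theorem ev_mem {k : ℕ} {S : Fin k → Set Pl} {F : Set (Set Pl)} (hF : IsProjAlg F)
    (hS : ∀ i, S i ∈ F) : ∀ a : Tm k, ev S a ∈ F
  | .g i => hS i
  | .c a => hF.compl_mem _ (ev_mem hF hS a)
  | .u a b => hF.union_mem _ (ev_mem hF hS a) _ (ev_mem hF hS b)
  | .p a => hF.pr1_mem _ (ev_mem hF hS a)
  | .q a => hF.pr2_mem _ (ev_mem hF hS a)
  | .t a b => hF.dprod_mem _ (hF.pr1_mem _ (ev_mem hF hS a)) _ (hF.pr2_mem _ (ev_mem hF hS b))
      (pr1_sub _) (pr2_sub _)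

theorem isProjAlg_range {k : ℕ} (S : Fin k → Set Pl) : IsProjAlg (range (ev S)) where
  union_mem := by
    rintro _ ⟨a, rfl⟩ _ ⟨b, rfl⟩
    exact ⟨.u a b, rfl⟩
  inter_mem := by
    rintro _ ⟨a, rfl⟩ _ ⟨b, rfl⟩
    refine ⟨.c (.u (.c a) (.c b)), ?_⟩
    simp [ev, compl_union]
  compl_mem := by
    rintro _ ⟨a, rfl⟩
    exact ⟨.c a, rfl⟩
  pr1_mem := by
    rintro _ ⟨a, rfl⟩
    exact ⟨.p a, rfl⟩
  pr2_mem := by
    rintro _ ⟨a, rfl⟩
    exact ⟨.q a, rfl⟩
  dprod_mem := by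
    rintro _ ⟨a, rfl⟩ _ ⟨b, rfl⟩ ha hb
    refine ⟨.t a b, ?_⟩
    show dprod (pr1 (ev S a)) (pr2 (ev S b)) = _
    rw [pr1_eq.1 ha, pr2_eq.1 hb]

theorem isProjAlg_gen (T : Set (Set Pl)) : IsProjAlg (gen T) where
  union_mem := fun A hA B hB F hF => hF.1.union_mem A (hA F hF) B (hB F hF)
  inter_mem := fun A hA B hB F hF => hF.1.inter_mem A (hA F hF) B (hB F hF)
  compl_mem := fun A hA F hF => hF.1.compl_mem A (hA F hF)
  pr1_mem := fun A hA F hF => hF.1.pr1_mem A (hA F hF)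
  pr2_mem := fun A hA F hF => hF.1.pr2_mem A (hA F hF)
  dprod_mem := fun A hA B hB h1 h2 F hF => hF.1.dprod_mem A (hA F hF) B (hB F hF) h1 h2

theorem subset_gen (T : Set (Set Pl)) : T ⊆ gen T := fun _ hA _ hF => hF.2 hA

theorem gen_subset {T F : Set (Set Pl)} (hF : IsProjAlg F) (h : T ⊆ F) : gen T ⊆ F :=
  fun _ hA => hA F ⟨hF, h⟩

theorem gen_eq_range {k : ℕ} (S : Fin k → Set Pl) : gen (range S) = range (ev S) := by
  apply Subset.antisymm
  · apply gen_subset (isProjAlg_range S)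
    rintro _ ⟨i, rfl⟩
    exact ⟨.g i, rfl⟩
  · rintro _ ⟨a, rfl⟩
    exact ev_mem (isProjAlg_gen _) (fun i => subset_gen _ (mem_range_self i)) a

/-! ### Isomorphisms form an equivalence relation -/

theorem Iso.refl (F : Set (Set Pl)) : Iso F F :=
  ⟨id, ⟨bijOn_id F, fun _ _ _ _ => rfl, fun _ _ _ _ => rfl, fun _ _ => rfl, fun _ _ => rfl,
    fun _ _ => rfl, fun _ _ _ _ _ _ => rfl⟩⟩

theorem IsIso.sub_axX {φ : Set Pl → Set Pl} {F G : Set (Set Pl)} (h : IsIso φ F G)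
    (hF : IsProjAlg F) {A : Set Pl} (hA : A ∈ F) : A ⊆ axX ↔ φ A ⊆ axX := by
  rw [pr1_eq, pr1_eq, ← h.pr1 A hA]
  constructor
  · intro e; rw [e]
  · intro e; exact h.bij.injOn (hF.pr1_mem A hA) hA e

theorem IsIso.sub_axY {φ : Set Pl → Set Pl} {F G : Set (Set Pl)} (h : IsIso φ F G)
    (hF : IsProjAlg F) {A : Set Pl} (hA : A ∈ F) : A ⊆ axY ↔ φ A ⊆ axY := by
  rw [pr2_eq, pr2_eq, ← h.pr2 A hA]
  constructor
  · intro e; rw [e]
  · intro e; exact h.bij.injOn (hF.pr2_mem A hA) hA e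

theorem Iso.symm {F G : Set (Set Pl)} (hF : IsProjAlg F) (h : Iso F G) : Iso G F := by
  obtain ⟨φ, h⟩ := h
  have hs : SurjOn φ F G := h.bij.surjOn
  set ψ := Function.invFunOn φ F with hψ
  have key : ∀ A ∈ F, ψ (φ A) = A := fun A hA => h.bij.injOn.leftInvOn_invFunOn hA
  refine ⟨ψ, ?_, ?_, ?_, ?_, ?_, ?_, ?_⟩
  · exact (h.bij.invOn_invFunOn.symm).bijOn
      (fun B hB => by
        obtain ⟨A, hA, rfl⟩ := hs hB
        have e : Function.invFunOn φ F (φ A) = A := key A hA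
        rw [e]; exact hA) h.bij.mapsTo
  · intro A' hA' B' hB'
    obtain ⟨A, hA, rfl⟩ := hs hA'
    obtain ⟨B, hB, rfl⟩ := hs hB'
    rw [← h.union A hA B hB, key _ (hF.union_mem A hA B hB), key A hA, key B hB]
  · intro A' hA' B' hB'
    obtain ⟨A, hA, rfl⟩ := hs hA'
    obtain ⟨B, hB, rfl⟩ := hs hB'
    rw [← h.inter A hA B hB, key _ (hF.inter_mem A hA B hB), key A hA, key B hB]
  · intro A' hA'
    obtain ⟨A, hA, rfl⟩ := hs hA'
    rw [← h.compl A hA, key _ (hF.compl_mem A hA), key A hA]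
  · intro A' hA'
    obtain ⟨A, hA, rfl⟩ := hs hA'
    rw [← h.pr1 A hA, key _ (hF.pr1_mem A hA), key A hA]
  · intro A' hA'
    obtain ⟨A, hA, rfl⟩ := hs hA'
    rw [← h.pr2 A hA, key _ (hF.pr2_mem A hA), key A hA]
  · intro A' hA' B' hB' h1 h2
    obtain ⟨A, hA, rfl⟩ := hs hA'
    obtain ⟨B, hB, rfl⟩ := hs hB'
    have h3 := (h.sub_axX hF hA).2 h1
    have h4 := (h.sub_axY hF hB).2 h2
    rw [← h.dprod A hA B hB h3 h4, key _ (hF.dprod_mem A hA B hB h3 h4), key A hA, key B hB]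

theorem Iso.trans {F G H : Set (Set Pl)} (hF : IsProjAlg F) (h : Iso F G) (h' : Iso G H) :
    Iso F H := by
  obtain ⟨φ, h⟩ := h
  obtain ⟨ψ, h'⟩ := h'
  have hm := h.bij.mapsTo
  refine ⟨ψ ∘ φ, h'.bij.comp h.bij, ?_, ?_, ?_, ?_, ?_, ?_⟩
  · intro A hA B hB
    simp only [Function.comp]
    rw [h.union A hA B hB, h'.union _ (hm hA) _ (hm hB)]
  · intro A hA B hB
    simp only [Function.comp]
    rw [h.inter A hA B hB, h'.inter _ (hm hA) _ (hm hB)]
  · intro A hA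
    simp only [Function.comp]
    rw [h.compl A hA, h'.compl _ (hm hA)]
  · intro A hA
    simp only [Function.comp]
    rw [h.pr1 A hA, h'.pr1 _ (hm hA)]
  · intro A hA
    simp only [Function.comp]
    rw [h.pr2 A hA, h'.pr2 _ (hm hA)]
  · intro A hA B hB h1 h2
    simp only [Function.comp]
    rw [h.dprod A hA B hB h1 h2, h'.dprod _ (hm hA) _ (hm hB) ((h.sub_axX hF hA).1 h1)
      ((h.sub_axY hF hB).1 h2)]

/-- Isomorphisms commute with terms. -/
theorem IsIso.ev {φ : Set Pl → Set Pl} {F G : Set (Set Pl)} (h : IsIso φ F G)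
    (hF : IsProjAlg F) {k : ℕ} {S : Fin k → Set Pl} (hS : ∀ i, S i ∈ F) :
    ∀ a : Tm k, φ (ev S a) = ev (fun i => φ (S i)) a
  | .g i => rfl
  | .c a => by
      show φ ((ProjAlg.ev S a)ᶜ) = _
      rw [h.compl _ (ev_mem hF hS a), h.ev hF hS a]; rfl
  | .u a b => by
      show φ (ProjAlg.ev S a ∪ ProjAlg.ev S b) = _
      rw [h.union _ (ev_mem hF hS a) _ (ev_mem hF hS b), h.ev hF hS a, h.ev hF hS b]; rfl
  | .p a => by
      show φ (ProjAlg.pr1 (ProjAlg.ev S a)) = _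
      rw [h.pr1 _ (ev_mem hF hS a), h.ev hF hS a]; rfl
  | .q a => by
      show φ (ProjAlg.pr2 (ProjAlg.ev S a)) = _
      rw [h.pr2 _ (ev_mem hF hS a), h.ev hF hS a]; rfl
  | .t a b => by
      show φ (ProjAlg.dprod (ProjAlg.pr1 (ProjAlg.ev S a)) (ProjAlg.pr2 (ProjAlg.ev S b))) = _
      rw [h.dprod _ (hF.pr1_mem _ (ev_mem hF hS a)) _ (hF.pr2_mem _ (ev_mem hF hS b))
        (pr1_sub _) (pr2_sub _), h.pr1 _ (ev_mem hF hS a), h.pr2 _ (ev_mem hF hS b),
        h.ev hF hS a, h.ev hF hS b]; rfl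

/-! ### Coding a set of natural numbers by one plane set -/

/-- The plane set which codes `Z`. -/
def R (Z : Set ℕ) : Set Pl :=
  {p | (∃ n : ℕ, p.1 = n ∧ p.2 = n + 1) ∨ (∃ n : ℕ, p.1 = n + 1 ∧ p.2 = n + 1) ∨
    (∃ n ∈ Z, p.1 = n ∧ p.2 = 0)}

/-- the whole plane -/
def tfull : Tm 1 := .u (.g 0) (.c (.g 0))
/-- the empty set -/
def tbot : Tm 1 := .c tfull
/-- intersection -/
def tinter (a b : Tm 1) : Tm 1 := .c (.u (.c a) (.c b))
/-- the origin -/
def torig : Tm 1 := tinter (.p tfull) (.q tfull)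

mutual
/-- the term for `{(n,0)}` -/
def txs : ℕ → Tm 1
  | 0 => torig
  | n + 1 => tinter (.p (tinter (.t tfull (tys (n + 1))) (.g 0))) (.c (txs n))
/-- the term for `{(0,n)}` -/
def tys : ℕ → Tm 1
  | 0 => torig
  | n + 1 => tinter (.q (tinter (.t (txs n) tfull) (.g 0))) (.c (.u torig (tys n)))
end

/-- the term which is empty iff `n ∉ Z` -/
def tcode (n : ℕ) : Tm 1 := tinter (.t (txs n) torig) (.g 0)

theorem mem_R (Z : Set ℕ) (x y : ℝ) : (x, y) ∈ R Z ↔
    (∃ n : ℕ, x = n ∧ y = n + 1) ∨ (∃ n : ℕ, x = n + 1 ∧ y = n + 1) ∨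
    (∃ n ∈ Z, x = n ∧ y = 0) := Iff.rfl

theorem ev_full (S : Fin 1 → Set Pl) : ev S tfull = univ := by
  simp [tfull, ev]

theorem ev_bot (S : Fin 1 → Set Pl) : ev S tbot = ∅ := by
  simp [tbot, ev, ev_full]

theorem ev_inter (S : Fin 1 → Set Pl) (a b : Tm 1) : ev S (tinter a b) = ev S a ∩ ev S b := by
  simp [tinter, ev, compl_union]

theorem ev_orig (S : Fin 1 → Set Pl) : ev S torig = {((0 : ℝ), (0 : ℝ))} := by
  ext ⟨x, y⟩
  simp [torig, ev_inter, ev, ev_full, pr1, pr2, Prod.ext_iff, and_comm]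

theorem ev_xs_ys (Z : Set ℕ) (n : ℕ) :
    ev (fun _ => R Z) (txs n) = {((n : ℝ), (0 : ℝ))} ∧
    ev (fun _ => R Z) (tys n) = {((0 : ℝ), (n : ℝ))} := by
  induction n with
  | zero => simp [txs, tys, ev_orig]
  | succ n ih =>
    obtain ⟨hx, hy⟩ := ih
    have hy' : ev (fun _ => R Z) (tys (n + 1)) = {((0 : ℝ), ((n + 1 : ℕ) : ℝ))} := by
      rw [tys, ev_inter]
      ext ⟨x, y⟩
      simp only [ev, ev_inter, hx, hy, ev_full, ev_orig, pr1, pr2, dprod, mem_R, mem_inter_iff,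
        mem_ofPred_eq, mem_singleton_iff, Prod.mk.injEq, mem_univ, mem_compl_iff, mem_union]
      constructor
      · rintro ⟨⟨rfl, x, ⟨⟨-, z, rfl, rfl⟩, -⟩, h⟩, h2⟩
        refine ⟨rfl, ?_⟩
        rcases h with ⟨m, h, h'⟩ | ⟨m, h, h'⟩ | ⟨m, -, h, h'⟩
        · rw [h']; push_cast; rw [h]
        · exfalso; apply h2; right
          exact ⟨rfl, by rw [h', ← h]⟩
        · exfalso; apply h2; left
          exact ⟨rfl, h'⟩
      · rintro ⟨rfl, rfl⟩
        refine ⟨⟨rfl, n, ⟨⟨trivial, 0, rfl, rfl⟩, trivial, 0, trivial⟩, Or.inl ⟨n, rfl, by push_cast; ring⟩⟩, ?_⟩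
        rintro (⟨-, h⟩ | ⟨-, h⟩)
        · have : ((n + 1 : ℕ) : ℝ) ≠ 0 := by positivity
          exact this h
        · push_cast at h; linarith
    refine ⟨?_, hy'⟩
    rw [txs, ev_inter]
    ext ⟨x, y⟩
    simp only [ev, ev_inter, hx, hy', ev_full, ev_orig, pr1, pr2, dprod, mem_R, mem_inter_iff,
      mem_ofPred_eq, mem_singleton_iff, Prod.mk.injEq, mem_univ, mem_compl_iff, mem_union]
    constructor
    · rintro ⟨⟨rfl, y, ⟨-, ⟨-, z, rfl, rfl⟩⟩, h⟩, h2⟩
      refine ⟨?_, rfl⟩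
      rcases h with ⟨m, h, h'⟩ | ⟨m, h, h'⟩ | ⟨m, -, h, h'⟩
      · exfalso; apply h2
        refine ⟨?_, rfl⟩
        push_cast at h'
        rw [h]; linarith
      · rw [h, ← h']
      · exfalso
        have : ((n + 1 : ℕ) : ℝ) ≠ 0 := by positivity
        exact this h'
    · rintro ⟨rfl, rfl⟩
      refine ⟨⟨rfl, ((n + 1 : ℕ) : ℝ), ⟨⟨trivial, 0, trivial⟩, ⟨trivial, 0, rfl, rfl⟩⟩,
        Or.inr (Or.inl ⟨n, by push_cast; ring, by push_cast; ring⟩)⟩, ?_⟩
      rintro ⟨h, -⟩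
      push_cast at h; linarith

theorem code_spec (Z : Set ℕ) (n : ℕ) :
    ev (fun _ => R Z) (tcode n) = ev (fun _ => R Z) tbot ↔ n ∉ Z := by
  rw [ev_bot, tcode, ev_inter]
  have h1 : ev (fun _ => R Z) (.t (txs n) torig) = {((n : ℝ), (0 : ℝ))} := by
    ext ⟨x, y⟩
    simp [ev, (ev_xs_ys Z n).1, ev_orig, pr1, pr2, dprod]
  rw [h1, show ev (fun _ => R Z) (.g 0) = R Z from rfl, ← not_iff_not, not_not,
    ← Ne, ← nonempty_iff_ne_empty]
  constructor
  · rintro ⟨⟨x, y⟩, h, h'⟩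
    simp only [mem_singleton_iff, Prod.mk.injEq] at h
    obtain ⟨rfl, rfl⟩ := h
    rw [mem_R] at h'
    rcases h' with ⟨m, h, h'⟩ | ⟨m, h, h'⟩ | ⟨m, hm, h, h'⟩
    · exfalso
      have : (m : ℝ) + 1 ≠ 0 := by positivity
      exact this h'.symm
    · exfalso
      have : (m : ℝ) + 1 ≠ 0 := by positivity
      exact this h'.symm
    · have h2 : n = m := by exact_mod_cast h
      rw [h2]; exact hm
  · intro hn
    exact ⟨_, rfl, Or.inr (Or.inr ⟨n, hn, rfl, rfl⟩)⟩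

/-- The one-generated algebra coding `Z`. -/
def FZ (Z : Set ℕ) : Set (Set Pl) := gen {R Z}

theorem R_mem (Z : Set ℕ) : R Z ∈ FZ Z := subset_gen _ rfl

/-- The set coded by an element of an algebra. -/
def dec (A : Set Pl) : Set ℕ := {n | ev (fun _ : Fin 1 => A) (tcode n) ≠ ev (fun _ => A) tbot}

theorem dec_R (Z : Set ℕ) : dec (R Z) = Z := by
  ext n
  have := code_spec Z n
  simp only [dec, mem_ofPred_eq, ne_eq, this, not_not]

theorem dec_iso {φ : Set Pl → Set Pl} {F G : Set (Set Pl)} (h : IsIso φ F G)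
    (hF : IsProjAlg F) {A : Set Pl} (hA : A ∈ F) : dec (φ A) = dec A := by
  ext n
  have hS : ∀ i : Fin 1, (fun _ : Fin 1 => A) i ∈ F := fun _ => hA
  have h1 := h.ev hF hS (tcode n)
  have h2 := h.ev hF hS tbot
  simp only [dec, mem_ofPred_eq, ne_eq]
  rw [← h1, ← h2]
  exact not_congr (h.bij.injOn.eq_iff (ev_mem hF hS _) (ev_mem hF hS _))

theorem countable_gen {k : ℕ} (S : Fin k → Set Pl) : (gen (range S)).Countable := by
  rw [gen_eq_range]; exact countable_range _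

theorem FZ_eq (Z : Set ℕ) {k : ℕ} (hk : 1 ≤ k) :
    FZ Z = gen (range (fun _ : Fin k => R Z)) := by
  have : Nonempty (Fin k) := ⟨⟨0, hk⟩⟩
  rw [FZ, range_const]

theorem countable_FZ (Z : Set ℕ) : (FZ Z).Countable := by
  rw [FZ_eq Z le_rfl]; exact countable_gen _

/-- No countable projective algebra is universal for the one-generated ones. -/
theorem no_universal (U : Set (Set Pl)) (hU : U.Countable) :
    ∃ Z : Set ℕ, ¬ ∃ V ⊆ U, IsProjAlg V ∧ Iso (FZ Z) V := by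
  by_contra hcon
  push Not at hcon
  choose V hVU hV hiso using hcon
  choose φ hφ using hiso
  have hmem : ∀ Z, φ Z (R Z) ∈ U := fun Z => hVU Z ((hφ Z).bij.mapsTo (R_mem Z))
  have hinj : Function.Injective (fun Z : Set ℕ => (⟨φ Z (R Z), hmem Z⟩ : U)) := by
    intro Z Z' h
    have h1 : φ Z (R Z) = φ Z' (R Z') := congrArg Subtype.val h
    have h2 := dec_iso (hφ Z) (isProjAlg_gen _) (R_mem Z)
    have h3 := dec_iso (hφ Z') (isProjAlg_gen _) (R_mem Z')
    rw [dec_R] at h2 h3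
    rw [← h2, ← h3, h1]
  have : Countable U := hU.to_subtype
  have hc : Countable (Set ℕ) := hinj.countable
  have h4 : #(Set ℕ) ≤ ℵ₀ := Cardinal.mk_le_aleph0
  rw [Cardinal.mk_set, Cardinal.mk_nat] at h4
  exact absurd h4 (not_le.2 (Cardinal.cantor _))

/-! ### The number of isomorphism types -/

/-- The isomorphism relation on a class of projective algebras. -/
def isoSetoid (P : Set (Set (Set Pl))) (hP : ∀ F ∈ P, IsProjAlg F) : Setoid P where
  r F G := Iso F.1 G.1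
  iseqv := ⟨fun F => Iso.refl F.1, fun {F _} h => h.symm (hP _ F.2),
    fun {F _ _} h h' => h.trans (hP _ F.2) h'⟩

/-- Two generating tuples with the same theory generate isomorphic algebras. -/
theorem iso_of_theory {k : ℕ} (S T : Fin k → Set Pl)
    (h : ∀ a b : Tm k, ev S a = ev S b ↔ ev T a = ev T b) :
    Iso (range (ev S)) (range (ev T)) := by
  classical
  let φ : Set Pl → Set Pl := fun A => if hA : ∃ a, ev S a = A then ev T hA.choose else ∅
  have hφ : ∀ a, φ (ev S a) = ev T a := by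
    intro a
    have hA : ∃ b, ev S b = ev S a := ⟨a, rfl⟩
    show (if hA : ∃ b, ev S b = ev S a then ev T hA.choose else ∅) = _
    rw [dif_pos hA]
    exact (h _ _).1 hA.choose_spec
  refine ⟨φ, ⟨?_, ?_, ?_⟩, ?_, ?_, ?_, ?_, ?_, ?_⟩
  · rintro _ ⟨a, rfl⟩; exact ⟨a, (hφ a).symm⟩
  · rintro _ ⟨a, rfl⟩ _ ⟨b, rfl⟩ e
    rw [hφ, hφ] at e
    exact (h _ _).2 e
  · rintro _ ⟨a, rfl⟩
    exact ⟨ev S a, ⟨a, rfl⟩, hφ a⟩
  · rintro _ ⟨a, rfl⟩ _ ⟨b, rfl⟩
    rw [hφ, hφ]; exact hφ (.u a b)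
  · rintro _ ⟨a, rfl⟩ _ ⟨b, rfl⟩
    rw [hφ, hφ]
    have := hφ (.c (.u (.c a) (.c b)))
    simpa [ev, compl_union] using this
  · rintro _ ⟨a, rfl⟩
    rw [hφ]; exact hφ (.c a)
  · rintro _ ⟨a, rfl⟩
    rw [hφ]; exact hφ (.p a)
  · rintro _ ⟨a, rfl⟩
    rw [hφ]; exact hφ (.q a)
  · rintro _ ⟨a, rfl⟩ _ ⟨b, rfl⟩ h1 h2
    rw [hφ, hφ]
    have h3 := hφ (.t a b)
    simp only [ev] at h3
    have h4 : pr1 (ev S a) = ev S a := pr1_eq.1 h1
    have h5 : pr2 (ev S b) = ev S b := pr2_eq.1 h2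
    have h6 : pr1 (ev T a) = ev T a := (h (.p a) a).1 h4
    have h7 : pr2 (ev T b) = ev T b := (h (.q b) b).1 h5
    rw [h4, h5, h6, h7] at h3
    exact h3

theorem card_classes {k : ℕ} (P : Set (Set (Set Pl)))
    (hP : ∀ F ∈ P, ∃ S : Fin k → Set Pl, F = gen (range S))
    (hP' : ∀ F ∈ P, IsProjAlg F) (hZ : ∀ Z, FZ Z ∈ P) :
    #(Quotient (isoSetoid P hP')) = 𝔠 := by
  choose S hS using hP
  let S' : Quotient (isoSetoid P hP') → (Fin k → Set Pl) := fun q => S q.out.1 q.out.2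
  have hS' : ∀ q, (q.out.1 : Set (Set Pl)) = range (ev (S' q)) := by
    intro q
    rw [hS q.out.1 q.out.2]; exact gen_eq_range _
  apply le_antisymm
  · -- upper bound
    let f : Quotient (isoSetoid P hP') → Set (Tm k × Tm k) :=
      fun q => {ab | ev (S' q) ab.1 = ev (S' q) ab.2}
    have hf : Function.Injective f := by
      intro q q' e
      have h1 : Iso (range (ev (S' q))) (range (ev (S' q'))) := by
        apply iso_of_theory
        intro a b
        have : ((a, b) ∈ f q) ↔ ((a, b) ∈ f q') := by rw [e]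
        exact this
      rw [← hS', ← hS'] at h1
      rw [← Quotient.out_eq q, ← Quotient.out_eq q']
      exact Quotient.sound h1
    have h2 : #(Quotient (isoSetoid P hP')) ≤ #(Set (Tm k × Tm k)) := Cardinal.mk_le_of_injective hf
    refine h2.trans ?_
    rw [Cardinal.mk_set, ← Cardinal.two_power_aleph0]
    exact Cardinal.power_le_power_left two_ne_zero Cardinal.mk_le_aleph0
  · -- lower bound
    have hiso : ∀ Z : Set ℕ, Iso (FZ Z)
        ((Quotient.mk (isoSetoid P hP') ⟨FZ Z, hZ Z⟩).out.1) := by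
      intro Z
      have : (isoSetoid P hP').r (Quotient.mk (isoSetoid P hP') ⟨FZ Z, hZ Z⟩).out
          (⟨FZ Z, hZ Z⟩ : P) := Quotient.mk_out (s := isoSetoid P hP') _
      exact Iso.symm (hP' _ (Quotient.mk (isoSetoid P hP') ⟨FZ Z, hZ Z⟩).out.2) this
    choose φ hφ using hiso
    have hterm : ∀ Z : Set ℕ, ∃ a : Tm k,
        ev (S' (Quotient.mk (isoSetoid P hP') ⟨FZ Z, hZ Z⟩)) a = φ Z (R Z) := by
      intro Z
      have h1 := (hφ Z).bij.mapsTo (R_mem Z)
      rw [hS'] at h1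
      exact h1
    choose a ha using hterm
    let f : Set ℕ → Quotient (isoSetoid P hP') × Tm k :=
      fun Z => (Quotient.mk (isoSetoid P hP') ⟨FZ Z, hZ Z⟩, a Z)
    have hf : Function.Injective f := by
      intro Z Z' e
      have h1 : Quotient.mk (isoSetoid P hP') ⟨FZ Z, hZ Z⟩ =
        Quotient.mk (isoSetoid P hP') ⟨FZ Z', hZ Z'⟩ := congrArg Prod.fst e
      have h2 : a Z = a Z' := congrArg Prod.snd e
      have h3 : φ Z (R Z) = φ Z' (R Z') := by
        rw [← ha Z, ← ha Z', h1, h2]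
      have h4 := dec_iso (hφ Z) (isProjAlg_gen _) (R_mem Z)
      have h5 := dec_iso (hφ Z') (isProjAlg_gen _) (R_mem Z')
      rw [dec_R] at h4 h5
      rw [← h4, ← h5, h3]
    have h6 : #(Set ℕ) ≤ #(Quotient (isoSetoid P hP') × Tm k) := Cardinal.mk_le_of_injective hf
    rw [Cardinal.mk_set, Cardinal.mk_nat, Cardinal.two_power_aleph0, Cardinal.mk_prod,
      Cardinal.lift_id, Cardinal.lift_id] at h6
    by_contra hlt
    rw [not_le] at hlt
    have h7 : #(Quotient (isoSetoid P hP')) * #(Tm k) ≤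
        #(Quotient (isoSetoid P hP')) * ℵ₀ := mul_le_mul_right Cardinal.mk_le_aleph0 _
    have h8 : #(Quotient (isoSetoid P hP')) * ℵ₀ ≤
        max (max #(Quotient (isoSetoid P hP')) ℵ₀) ℵ₀ := Cardinal.mul_le_max _ _
    have h9 : max (max #(Quotient (isoSetoid P hP')) ℵ₀) ℵ₀ < 𝔠 :=
      max_lt (max_lt hlt Cardinal.aleph0_lt_continuum) Cardinal.aleph0_lt_continuum
    exact absurd (h6.trans (h7.trans h8)) (not_le.2 h9)

/-- The projective algebras generated by `k` plane sets `S 0, …, S (k-1)` (repetitions allowed). -/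
def Generated (k : ℕ) : Set (Set (Set Pl)) := {F | ∃ S : Fin k → Set Pl, F = gen (range S)}

/-- The projective algebras generated by `k` pairwise distinct plane sets. -/
def GeneratedDistinct (k : ℕ) : Set (Set (Set Pl)) :=
  {F | ∃ S : Fin k → Set Pl, Function.Injective S ∧ F = gen (range S)}

theorem FZ_mem_generated (Z : Set ℕ) {k : ℕ} (hk : 1 ≤ k) : FZ Z ∈ Generated k :=
  ⟨_, FZ_eq Z hk⟩

theorem FZ_mem_generatedDistinct (Z : Set ℕ) {k : ℕ} (hk : 1 ≤ k) :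
    FZ Z ∈ GeneratedDistinct k := by
  let S : Fin k → Set Pl := fun i => if i.val = 0 then R Z else {((i.val : ℝ), (0 : ℝ))}
  have h0 : R Z = S ⟨0, hk⟩ := rfl
  have hpt : ((0 : ℝ), (1 : ℝ)) ∈ R Z := (mem_R Z 0 1).2 (Or.inl ⟨0, by simp, by simp⟩)
  have hne : ∀ r : ℝ, R Z ≠ {(r, (0 : ℝ))} := by
    intro r e
    rw [e] at hpt
    simp at hpt
  refine ⟨S, ?_, ?_⟩
  · intro i j hij
    by_cases hi : i.val = 0
    · by_cases hj : j.val = 0
      · exact Fin.ext (hi.trans hj.symm)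
      · exfalso
        simp only [S, hi, hj, if_true, if_false] at hij
        exact hne _ hij
    · by_cases hj : j.val = 0
      · exfalso
        simp only [S, hi, hj, if_true, if_false] at hij
        exact hne _ hij.symm
      · simp only [S, hi, hj, if_false, singleton_eq_singleton_iff, Prod.mk.injEq, and_true,
          Nat.cast_inj] at hij
        exact Fin.ext hij
  · apply Subset.antisymm
    · apply gen_subset (isProjAlg_gen _)
      rw [singleton_subset_iff, h0]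
      exact subset_gen _ (mem_range_self _)
    · apply gen_subset (isProjAlg_gen _)
      rintro _ ⟨i, rfl⟩
      by_cases hi : i.val = 0
      · simp only [S, hi, if_true]
        exact R_mem Z
      · simp only [S, hi, if_false]
        rw [← (ev_xs_ys Z i.val).1]
        exact ev_mem (isProjAlg_gen _) (fun _ => R_mem Z) _

end Pool.Agent.H243.ProjAlg
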